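import Pool.Agent.TH93.CA.Ev

/-!
# How much advice does `NE` need to contain the complements of its members?

`InNTime Lin A` is the class `NE` relative to the oracle `A`. `InNTAdv b a A L` says that `L` is
accepted in nondeterministic time polynomial in `b(n)` with at most `a(n)` bits of advice.

1. Relative to every oracle, the complements of the members of `NE` are in `NE` with `n` bits of
advice (the number of the members of length `n`; one bit for `n = 0`).

2. Let `S` be any countable set of bounds `b` with `b(n) = 2 ^ o(2 ^ n)`. Relative to almost every
oracle there is a language `L` in `NE` whose complement needs more than `n - 3 (log n + 1)` bits of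
advice for all large `n`, for all nondeterministic time classes given by a bound in `S`.

So relative to a random oracle the number of advice bits that `NE` needs to contain `coNE` is `n` up
to `O(log n)`, and time `2 ^ 2 ^ (n / 2)` instead of `2 ^ O(n)` does not help.

The language compares the number of the strings `w` of length `2 ^ n` that win (by a rule about the
oracle which makes the expected number of the winners `4 ^ n / n ^ 2` up to a constant) with the
number given by the input. An algorithm with fixed advice accepts the complement correctly for
essentially one value of the number of the winners only, because it cannot notice an additional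
winner.
-/

set_option autoImplicit false

namespace Pool.Agent.Results.MP_64fb07_lc.AdviceForComplement

open Pool.Agent.NPC Pool.Agent.H620R2.Gauge Pool.Agent.H622R2.Exp Pool.Agent.TH678.ETH
open Pool.Agent.TH93.CA Filter

theorem result :
    (∀ (A : Oracle) (a : ℕ → ℕ), (∀ n, max n 1 ≤ a n) → ∀ L, InNTime Lin A L →
      ∃ c : ℕ, InNTAdv (fun n => 2 ^ (c * (n + 1))) a A Lᶜ) ∧
    ∀ S : Set (ℕ → ℕ), S.Countable → (∀ b ∈ S, ∀ k : ℕ, ∀ᶠ n in atTop, b n ^ k ≤ 2 ^ 2 ^ n) →
      ∀ᵐ A ∂ranO, ∃ L, InNTime Lin A L ∧ ∀ b ∈ S, ∀ a : ℕ → ℕ, InNTAdv b a A Lᶜ →
        ∀ᶠ n in atTop, n < a n + 3 * (Nat.log 2 n + 1) := by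
  refine ⟨fun A a ha L hL => census_lin ha hL, fun S hS hb => ?_⟩
  filter_upwards [ae_hard hS hb] with A hA
  exact ⟨CL A, cl_ne A, hA⟩

end Pool.Agent.Results.MP_64fb07_lc.AdviceForComplement
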