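import Pool.Agent.TH771.CX.NLow4
import Pool.Agent.TH771.CX.NClose
import Pool.Agent.TH771.CX.ExpClose
import Pool.Agent.H529R3.Gap.Main

/-!
# How many strings of a random oracle must be changed to make `NE` closed under complement?

Let `g` be a function. If for every `ε > 0` there are infinitely many `n` with
`g n ≤ ε log log n`, then for almost every oracle `O`, every oracle `A` which is obtained from `O`
by at most `g` changes has `NE^A ≠ coNE^A`. Otherwise every oracle `O` whatsoever can be changed
at `g` strings so that `NE = coNE`. If moreover `g n ≤ n ^ ε` infinitely often for every `ε > 0`,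
then for almost every `O`, whatever the changes are, `E ≠ NE`; and if moreover
`g n ≤ 2 ^ (n ^ ε)` infinitely often for every `ε > 0`, then for almost every `O`, whatever the
changes are, `NP` is not in `coNP` with polynomial advice.

Upper bound (`Pool/Agent/TH771/CX/NClose.lean`): Every language in `NE` is complemented with its
census number at a scale near the length of the input. Only one change of the oracle is needed
to write a census number with `b` digits, as the syndrome of the oracle on `2 ^ b` code strings.
There are `log log n / K` scales below `n` for the first language, half of this for the second,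
and so on.

Lower bound (`Pool/Agent/TH771/CX/NLow4.lean`): The adversary knows the oracle, and the verifier may
guess the changes. Take `R` levels, inputs of lengths each much larger than the one before, and a
minimal set of changes which makes the verifier right on all levels. The changes are made level by
level, and each of them is relevant for an input of its level: it is in a certificate, or it is
critical (changing it back makes the verifier wrong). If there are fewer than `R / 4` changes, then
on some level nothing is changed, and below this level there are few changes in comparison with the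
size of the level. By the satisfiability coding lemma of Paturi, Pudlák and Zane these changes can
be found from the changed oracle with little information; without any change on its own level the
verifier is right only with a tiny probability, so a union bound works.
-/

set_option autoImplicit false

namespace Pool.Agent.Results.MP_64fb07_lc.ChangedStrings

open Filter MeasureTheory Pool.Agent.NPC
open Pool.Agent.H628R3.RO (randomOracle)
open Pool.Agent.H620R2.Gauge Pool.Agent.H622R2.Exp Pool.Agent.W900.CH Pool.Agent.TH771.CX

theorem result (g : ℕ → ℝ) :
    ((∀ ε : ℝ, 0 < ε → ∃ᶠ n : ℕ in atTop, g n ≤ ε * Real.logb 2 (Real.logb 2 n)) →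
      ∀ᵐ O ∂randomOracle, ∀ A, Close g O A → ∃ L, InNTime Lin A L ∧ ¬ InNTime Lin A Lᶜ) ∧
    ((¬ ∀ ε : ℝ, 0 < ε → ∃ᶠ n : ℕ in atTop, g n ≤ ε * Real.logb 2 (Real.logb 2 n)) →
      (∀ O : Oracle, ∃ A, Close g O A ∧ ∀ L, InNTime Lin A L ↔ InNTime Lin A Lᶜ) ∧
      ((∀ ε : ℝ, 0 < ε → ∃ᶠ n : ℕ in atTop, g n ≤ (n : ℝ) ^ ε) →
        ∀ᵐ O ∂randomOracle, ∀ A, Close g O A → ∃ L, InNTime Lin A L ∧ ¬ InTime Lin A L) ∧
      ((∀ ε : ℝ, 0 < ε → ∃ᶠ n : ℕ in atTop, g n ≤ 2 ^ (n : ℝ) ^ ε) →
        ∀ᵐ O ∂randomOracle, ∀ A, Close g O A → ∃ L, IsNP A L ∧ ¬ WithAdvice (IsNP A) Lᶜ)) := by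
  refine ⟨fun hg => ?_, fun hg => ⟨fun O => ?_, fun hg2 => ?_, fun hg2 => ?_⟩⟩
  · filter_upwards [ae_far_NE hg] with O hO A hA
    exact ⟨hit2 A, hit2_ntime good_Lin A, hO A hA⟩
  · push Not at hg
    obtain ⟨ε, hε, h⟩ := hg
    obtain ⟨A, h1, h2⟩ := exists_close_NE hε h O
    exact ⟨A, h1, fun L => ⟨h2 L, fun h3 => by simpa using h2 Lᶜ h3⟩⟩
  · filter_upwards [ae_far_E hg2] with O hO A hA
    exact ⟨hit2 A, hit2_ntime good_Lin A, hO A hA⟩
  · exact ae_coNP hg2

end Pool.Agent.Results.MP_64fb07_lc.ChangedStrings
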