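import Pool.Agent.TH680.EL.Law
import Pool.Agent.TH680.DT.Empty

/-!
# `NE` versus `coNE` relative to random oracles: the exact density threshold

The strings `x` are put into the oracle `A` independently, with a probability `q |x|` that depends on
the length only, where `q` is an arbitrary function (`rand q` is the distribution of `A`). Let
`rare q n = 2 ^ n * min (q n) (1 - q n)`, the expected number of the strings of length `n` for which
`A` has the less probable value. Let `Q` be any further oracle. `NE` is nondeterministic time
`2 ^ O(n)`.

(1) If the series `∑ rare q n` diverges then, for almost all `A`, there is a language `L` in `NE`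
relative to `Q ⊕ A` whose complement is not even in nondeterministic time `2 ^ (2 ^ (n / 100))`,
and not in `NEXP`, relative to `Q ⊕ A`.

(2) If the series converges then, for almost all `A`, the oracles `Q ⊕ A` and `Q ⊕ common q` give
the same class `NE`, where `common q` is the oracle of the more probable values; the same holds
for `E` and for exponential space.

(3) So there is a law for all these random oracles: almost surely, `NE` is closed under complements
relative to `Q ⊕ A` if and only if the series converges and `NE` is closed under complements
relative to `Q ⊕ common q`; and if `common q` is in `P` (for instance empty, that is, if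
`q n ≤ 1 / 2` for all `n`): if and only if the series converges and `NE` is closed under complements
relative to `Q ⊕ ∅`.

The proof of (1). For a length `N`, consider `2 ^ n` groups of `k` strings of length `N`; a group is
a witness if all its bits are the less probable ones. One can choose `n ≥ √N` and `k` such that the
expected number `μ` of the witnesses is at most `1 / 2` and at least `min (rare q N) (1 / 4)`. The
instance `(N, n, k)` has a code of length `ℓ ≤ 12 log N + O(1)`, and the existence of a witness is in
`NE`. Nondeterministic machines for the complement with the time bound `2 ^ (2 ^ (ℓ / 100))` look at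
fewer than `2 ^ (n - 1)` strings. If they were correct for all large `N` on a set `G` of oracles of
positive probability, then, up to a small relative error, `G` is an event `C` that concerns finitely
many strings, and whenever `A` in `G` has no witness of length `N`, the change of any of the at least
`2 ^ (n - 1)` groups that the certificate does not look at into a witness gives an oracle outside of
`G`. So the expected number of the witnesses, on `C \ G`, is at least `μ / 8` times the probability
of `C`. By the divergence of the series the sum of these numbers over an interval of lengths can be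
made of order `1`; but by the second moment, this is impossible on a set as small as `C \ G`.
(This engine is the one of the hand-in `MP_0e79d0_lc.DensityThreshold`.)
-/

set_option autoImplicit false

namespace Pool.Agent.Results.MP_64fb07_lc.DensityThreshold

open MeasureTheory Pool.Agent.NPC Pool.Agent.H620R2.Gauge Pool.Agent.H622R2.Exp
open Pool.Agent.W900.IE (indep)

/-- The distribution of the random oracle: the strings `x` are in the oracle with probability
`q |x|`, independently. -/
noncomputable def rand (q : ℕ → unitInterval) : Measure Oracle := indep (fun x => q x.length)

/-- The expected number of the strings of length `n` for which the random oracle has the less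
probable value. -/
noncomputable def rare (q : ℕ → unitInterval) (n : ℕ) : ℝ := 2 ^ n * min (q n : ℝ) (1 - q n)

/-- The oracle of the more probable values. -/
noncomputable def common (q : ℕ → unitInterval) : Oracle := fun x =>
  decide ((1 / 2 : ℝ) < q x.length)

/-- The empty oracle. -/
def empty : Oracle := fun _ => false

/-- The disjoint union of the oracles `Q` and `A`. -/
def join (Q A : Oracle) : Oracle
  | [] => false
  | false :: z => Q z
  | true :: z => A z

/-- `NE` is closed under complements, relative to `A`. -/
def Closed (A : Oracle) : Prop := ∀ L, InNTime Lin A L → InNTime Lin A Lᶜ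

/-- Nondeterministic time `2 ^ (2 ^ (n / 100))` relative to `A`: certificates of this length, and a
verifier which works in polynomial time relative to `A` in the lengths of the certificate and of the
input. -/
def InNTime2 (A : Oracle) (L : Set (List Bool)) : Prop :=
  ∃ V : List Bool → List Bool, IsFP A V ∧ ∀ x : List Bool,
    (x ∈ L ↔ ∃ w : List Bool, w.length ≤ 2 ^ 2 ^ (x.length / 100) ∧ V (pairBits w x) = [true])

theorem join_eq : TH680.OD.join = join := by
  funext Q A x
  rcases x with _ | ⟨b, z⟩
  · rfl
  · cases b <;> rfl

theorem rare_eq (q : ℕ → unitInterval) : W900.IE.dev (TH680.DT.pq q) = rare q := by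
  funext n
  unfold W900.IE.dev TH680.DT.pq rare
  have h : ∀ v : Fin n → Bool, min (q (List.ofFn v).length : ℝ) (1 - q (List.ofFn v).length) =
      min (q n : ℝ) (1 - q n) := fun v => by rw [List.length_ofFn]
  rw [Finset.sum_congr rfl fun v _ => h v, Finset.sum_const, nsmul_eq_mul, Finset.card_univ]
  simp

theorem poly_join {E : List Bool → Bool} (hE : Poly E) :
    Poly (fun x : List Bool => decide (x.head? = some true) && E x.tail) :=
  Poly.and (Poly.decide_eq (Poly.head? Poly.id) (NPC.Poly.const _)) (hE.comp (Poly.tail Poly.id))

theorem join_xor (Q : Oracle) {A D : Oracle} {E : List Bool → Bool}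
    (h : ∀ x, D x = (A x ^^ E x)) (x : List Bool) :
    join Q D x = (join Q A x ^^ (decide (x.head? = some true) && E x.tail)) := by
  rcases x with _ | ⟨b, z⟩
  · rfl
  · cases b with
    | false => simp [join]
    | true =>
      show D z = _
      rw [h]
      simp [join]

/-- **`NE` versus `coNE` relative to random oracles: the exact density threshold.** -/
theorem result (q : ℕ → unitInterval) (Q : Oracle) :
    (¬ Summable (rare q) → ∀ᵐ A ∂(rand q), ∃ L, InNTime Lin (join Q A) L ∧
      ¬ InNTime Pol (join Q A) Lᶜ ∧ ¬ InNTime2 (join Q A) Lᶜ) ∧
    (Summable (rare q) → ∀ᵐ A ∂(rand q), ∀ L : Set (List Bool),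
      (InTime Lin (join Q A) L ↔ InTime Lin (join Q (common q)) L) ∧
      (InNTime Lin (join Q A) L ↔ InNTime Lin (join Q (common q)) L) ∧
      (InSpace Lin (join Q A) L ↔ InSpace Lin (join Q (common q)) L)) ∧
    (∀ᵐ A ∂(rand q),
      (Closed (join Q A) ↔ (Summable (rare q) ∧ Closed (join Q (common q))))) ∧
    (IsP empty {x | common q x = true} → ∀ᵐ A ∂(rand q),
      (Closed (join Q A) ↔ (Summable (rare q) ∧ Closed (join Q empty)))) := by
  have h1 : ¬ Summable (rare q) → ∀ᵐ A ∂(rand q), ∃ L, InNTime Lin (join Q A) L ∧
      ¬ InNTime Pol (join Q A) Lᶜ ∧ ¬ InNTime2 (join Q A) Lᶜ := by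
    intro h
    have h0 := TH680.EL.ae_ne (q := q) h Q
    rw [join_eq] at h0
    exact h0
  have h2 : Summable (rare q) → ∀ᵐ A ∂(rand q), Poly (fun x => (A x ^^ common q x)) := by
    intro h
    rw [← rare_eq] at h
    exact TH680.DT.ae_same h
  have hx : ∀ A : Oracle, ∀ x, common q x = (A x ^^ (A x ^^ common q x)) := fun A x => by
    cases A x <;> cases common q x <;> rfl
  have hcl : ∀ {A D : Oracle}, (∀ L, InNTime Lin A L ↔ InNTime Lin D L) →
      (Closed A ↔ Closed D) := by
    intro A D h
    unfold Closed
    simp only [h]
  have h3 : ∀ᵐ A ∂(rand q),
      (Closed (join Q A) ↔ (Summable (rare q) ∧ Closed (join Q (common q)))) := by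
    by_cases h : Summable (rare q)
    · filter_upwards [h2 h] with A hA
      rw [hcl fun L => (TH680.EL.same (poly_join hA) (join_xor Q (hx A)) Lin L).2.1]
      simp [h]
    · filter_upwards [h1 h] with A hA
      obtain ⟨L, hL, hA, _⟩ := hA
      constructor
      · intro h'
        obtain ⟨V, hV, p, _, h5⟩ := h' L hL
        exact absurd ⟨V, hV, p, Set.mem_univ _, h5⟩ hA
      · exact fun h' => absurd h'.1 h
  refine ⟨h1, fun h => ?_, h3, fun hq => ?_⟩
  · filter_upwards [h2 h] with A hA
    exact TH680.EL.same (poly_join hA) (join_xor Q (hx A)) Lin
  · have hc : Poly (common q) := by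
      obtain ⟨V, hV, hL⟩ := hq
      have h3 := TH680.DT.poly_of_isFP_empty hV
      refine (Poly.decide_eq h3 (NPC.Poly.const [true])).congr fun x => ?_
      have h4 := hL x
      rw [Set.mem_ofPred_eq] at h4
      rw [Bool.eq_iff_iff, h4, decide_eq_true_eq]
    have he : ∀ x, empty x = (common q x ^^ common q x) := fun x => by
      unfold empty
      cases common q x <;> rfl
    filter_upwards [h3] with A hA
    rw [hA, hcl fun L => (TH680.EL.same (poly_join hc) (join_xor Q he) Lin L).2.1]

end Pool.Agent.Results.MP_64fb07_lc.DensityThreshold
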