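import Pool.Agent.TH682.HS.Down

/-!
# `NE = coNE`, and sets in `NP` which reduce to membership in permutation groups

Polynomial time is Mathlib's `Turing.TM2ComputableInPolyTime`, for functions on bit strings.

Theorem. `NE` is closed under complement if and only if the complement of every set in `NP` with a
many-one reduction to the membership problem of nonuniform permutation groups is in `NP`: for every
input length `n` there is an arbitrary subgroup `H` of a symmetric group, and `x` of length `n` is in
the set if and only if a permutation, computed from `x` and `O(log n)` bits of advice in polynomial
time, is in `H`.

Hartmanis, Immerman and Sewelson (1985) proved this for sparse sets. A sparse set `S` reduces to
membership in linear spaces over the field with two elements: for the columns `c (x)` of the parity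
check matrix of a BCH code of distance at least `|S| + 2` (`S` restricted to the input length), the
set `S` consists of the `x` with `c (x)` in the span of the `c (s)`, `s ∈ S`; and linear spaces over
the field with two elements are permutation groups (products of transpositions). The group `H` here
can contain almost all values, and the sets of the theorem can have exponentially many elements.

Proof. For the first direction the census of the members is replaced by the largest number of
insertions: a permutation is sifted through a table that has at most one permutation for each pair
(first point which is not fixed, its image), and it is inserted if it does not reach the identity;
there are at most `N ^ 2` insertions for permutations of `N` points. The set of the triples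
`(n, a, k)` such that some sequence of `k` members of length `n` has `k` insertions (for the advice
`a`) is in `NE`, as the triple has `O(log n)` bits, hence so is its complement. A certificate for
`x ∉ A` is a number `a`, a sequence of `k` members with witnesses and with `k` insertions, such that
the sequence extended with `x` has `k + 1` insertions, and a certificate for `(n, a, k + 1)` in the
complementary set. If `x` were a member then the extended sequence would contradict the last
certificate, whatever `a` is. If `x` is not a member, then for the correct advice and the largest
`k`, the permutation of `x` is inserted, as otherwise it would be a product of permutations of
members, hence in `H`. For the other direction, a set over one letter reduces to the trivial group.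
-/

set_option autoImplicit false

namespace Pool.Agent.Results.MP_64fb07_lc.GroupMembership

open Pool.Agent.NPC Pool.Agent.TH682.HS

/-- **`NE = coNE` and permutation groups.** `NE` is closed under complement if and only if the
complement of every set in `NP` which reduces to membership in nonuniform permutation groups is in
`NP`. -/
theorem result : (∀ L : Set (List Bool), InNE L → InNE Lᶜ) ↔
    ∀ A : Set (List Bool), InNP A → GroupMember A → InNP Aᶜ :=
  ⟨fun h _ hA hG => compl_inNP h hA hG,
    fun h _ hL => compl_inNE (h _ (una_inNP hL) (una_group _))⟩

end Pool.Agent.Results.MP_64fb07_lc.GroupMembership
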